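import Pool.Agent.H.MP_988dcd_pr.A

/-! Penney-Ante against a uniformly random first player. -/

open MeasureTheory ProbabilityTheory Filter Asymptotics

namespace Pool.Agent.Results.MP_988dcd_pr.BigO

/-- the string `A` occurs in `ω` starting at position `t` -/
def Occ {n : ℕ} (A : Fin n → Bool) (ω : ℕ → Bool) (t : ℕ) : Prop := ∀ i : Fin n, ω (t + i) = A i

/-- probability that `B` appears before `A` in fair coin tossing -/
noncomputable def P {n : ℕ} (B A : Fin n → Bool) : ℝ :=
  (Measure.infinitePi fun _ : ℕ => uniformOn (Set.univ : Set Bool)).real {ω | ∃ t, Occ B ω t ∧ ∀ s ≤ t, ¬ Occ A ω s}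

/-- winning probability of the best reply to a uniformly random string -/
noncomputable def pn (n : ℕ) : ℝ := (∑ A : Fin n → Bool, ⨆ B : {B // B ≠ A}, P B.1 A) / 2 ^ n

theorem result : (fun n => pn n - 2 / 3) =O[atTop] fun n : ℕ => (n : ℝ) / 2 ^ n :=
  Pool.Agent.H.MP_988dcd_pr.main

end Pool.Agent.Results.MP_988dcd_pr.BigO
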